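import Pool.Agent.Lib.MP_2eed13_lc.LCA.Base

/-!
# Closure properties of the linear-space functions `LSf`
-/

set_option autoImplicit false

namespace Pool.Agent.Lib.MP_2eed13_lc.LCA

open Finset

/-! ### unary functions -/

theorem LS.of_eq {f g : ℕ → ℕ} (hf : LS f) (h : ∀ n, f n = g n) : LS g := by
  have : f = g := funext h
  rwa [← this]

theorem LS.id' : LS fun n => n := by
  have h := LS.pair LS.left LS.right
  simpa only [Nat.pair_unpair] using h

theorem LS.const (k : ℕ) : LS fun _ => k := by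
  induction k with
  | zero => exact LS.zero
  | succ k ih => exact (LS.comp LS.succ ih).of_eq fun _ => rfl

theorem pair_le_sq (a b : ℕ) : Nat.pair a b ≤ (a + b + 1) ^ 2 := by
  unfold Nat.pair
  split_ifs with h
  · nlinarith
  · nlinarith

theorem LS.bound {f : ℕ → ℕ} (hf : LS f) : ∃ c, ∀ x, f x ≤ (x + 2) ^ c := by
  induction hf with
  | zero => exact ⟨0, fun x => by simp⟩
  | succ => exact ⟨1, fun x => by simp⟩
  | left => exact ⟨1, fun x => by have := Nat.unpair_left_le x; simp; omega⟩
  | right => exact ⟨1, fun x => by have := Nat.unpair_right_le x; simp; omega⟩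
  | @pair f g _ _ ihf ihg =>
    obtain ⟨c, hc⟩ := ihf
    obtain ⟨d, hd⟩ := ihg
    refine ⟨(c + d + 2) * 2, fun x => ?_⟩
    have h1 := pair_le_sq (f x) (g x)
    have h2 : f x + g x + 1 ≤ (x + 2) ^ (c + d + 2) := by
      have e1 : (x + 2) ^ c ≤ (x + 2) ^ (c + d) := Nat.pow_le_pow_right (by omega) (by omega)
      have e2 : (x + 2) ^ d ≤ (x + 2) ^ (c + d) := Nat.pow_le_pow_right (by omega) (by omega)
      have e3 : 1 ≤ (x + 2) ^ (c + d) := Nat.one_le_pow _ _ (by omega)
      have e4 : (x + 2) ^ (c + d + 2) = (x + 2) ^ (c + d) * ((x + 2) * (x + 2)) := by ring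
      have e5 : 4 ≤ (x + 2) * (x + 2) := by nlinarith
      have e6 := hc x
      have e7 := hd x
      rw [e4]
      nlinarith
    calc Nat.pair (f x) (g x) ≤ (f x + g x + 1) ^ 2 := h1
      _ ≤ ((x + 2) ^ (c + d + 2)) ^ 2 := Nat.pow_le_pow_left h2 2
      _ = _ := by rw [← pow_mul]
  | @comp f g _ _ ihf ihg =>
    obtain ⟨c, hc⟩ := ihf
    obtain ⟨d, hd⟩ := ihg
    refine ⟨(d + 2) * c, fun x => ?_⟩
    calc f (g x) ≤ (g x + 2) ^ c := hc _
      _ ≤ ((x + 2) ^ (d + 2)) ^ c := by
        apply Nat.pow_le_pow_left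
        have e1 := hd x
        have e2 : 1 ≤ (x + 2) ^ d := Nat.one_le_pow _ _ (by omega)
        have e3 : (x + 2) ^ (d + 2) = (x + 2) ^ d * ((x + 2) * (x + 2)) := by ring
        have e4 : 4 ≤ (x + 2) * (x + 2) := by nlinarith
        rw [e3]
        nlinarith
      _ = _ := by rw [← pow_mul]
  | @prec f g c _ _ hb ihf ihg =>
    refine ⟨2 * c, fun x => ?_⟩
    have h1 := hb x.unpair.1 x.unpair.2
    refine h1.trans ?_
    rw [pow_mul]
    apply Nat.pow_le_pow_left
    have e1 := Nat.unpair_left_le x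
    have e2 := Nat.unpair_right_le x
    nlinarith

/-! ### typed functions -/

section typed

variable {α β γ σ : Type} [Denumerable α] [Denumerable β] [Denumerable γ] [Denumerable σ]

theorem LSf.of_eq {f g : α → β} (hf : LSf f) (h : ∀ a, f a = g a) : LSf g := by
  have : f = g := funext h
  rwa [← this]

theorem LSf.comp {g : β → γ} {f : α → β} (hg : LSf g) (hf : LSf f) : LSf fun a => g (f a) := by
  have h := LS.comp hg hf
  simpa [LSf] using h

theorem LSf.id : LSf fun a : α => a := by
  simpa [LSf] using LS.id'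

theorem LSf.const (b : β) : LSf fun _ : α => b := LS.const _

theorem LSf.enc {f : α → β} (hf : LSf f) : LSf fun a => Encodable.encode (f a) := hf

theorem LSf.of_enc {f : α → β} (hf : LSf fun a => Encodable.encode (f a)) : LSf f := hf

theorem LSf.fst {f : α → β × γ} (hf : LSf f) : LSf fun a => (f a).1 := by
  refine (LS.comp LS.left hf).of_eq fun n => ?_
  show (Nat.unpair (Encodable.encode (f (Denumerable.ofNat α n)))).1 =
    Encodable.encode (f (Denumerable.ofNat α n)).1
  generalize f (Denumerable.ofNat α n) = x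
  obtain ⟨b, c⟩ := x
  simp [Encodable.encode_prod_val]

theorem LSf.snd {f : α → β × γ} (hf : LSf f) : LSf fun a => (f a).2 := by
  refine (LS.comp LS.right hf).of_eq fun n => ?_
  show (Nat.unpair (Encodable.encode (f (Denumerable.ofNat α n)))).2 =
    Encodable.encode (f (Denumerable.ofNat α n)).2
  generalize f (Denumerable.ofNat α n) = x
  obtain ⟨b, c⟩ := x
  simp [Encodable.encode_prod_val]

theorem LSf.pair {f : α → β} {g : α → γ} (hf : LSf f) (hg : LSf g) : LSf fun a => (f a, g a) := by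
  have h := LS.pair hf hg
  simpa [LSf, Encodable.encode_prod_val] using h

theorem LSf.unpair1 {f : α → ℕ} (hf : LSf f) : LSf fun a => (f a).unpair.1 := by
  have h := LS.comp LS.left hf
  simpa [LSf] using h

theorem LSf.unpair2 {f : α → ℕ} (hf : LSf f) : LSf fun a => (f a).unpair.2 := by
  have h := LS.comp LS.right hf
  simpa [LSf] using h

theorem LSf.natPair {f g : α → ℕ} (hf : LSf f) (hg : LSf g) :
    LSf fun a => Nat.pair (f a) (g a) := by
  have h := LS.pair hf hg
  simpa [LSf] using h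

theorem LSf.succ {f : α → ℕ} (hf : LSf f) : LSf fun a => f a + 1 := by
  have h := LS.comp LS.succ hf
  simpa [LSf] using h

theorem LSf.bound {f : α → ℕ} (hf : LSf f) : ∃ c, ∀ a, f a ≤ (Encodable.encode a + 2) ^ c := by
  obtain ⟨c, hc⟩ := LS.bound hf
  refine ⟨c, fun a => ?_⟩
  have := hc (Encodable.encode a)
  simpa using this

theorem LSf.nat_rec {f : α → σ} {g : α → ℕ → σ → σ} (c : ℕ) (hf : LSf f)
    (hg : LSf fun p : α × ℕ × σ => g p.1 p.2.1 p.2.2)
    (h : ∀ a n, Encodable.encode (Nat.rec (motive := fun _ => σ) (f a) (g a) n) ≤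
      (Encodable.encode a + n + 2) ^ c) :
    LSf fun p : α × ℕ => Nat.rec (motive := fun _ => σ) (f p.1) (g p.1) p.2 := by
  have key : ∀ z n : ℕ, Nat.rec (motive := fun _ => ℕ) (Encodable.encode (f (Denumerable.ofNat α z)))
      (fun y IH => Encodable.encode
        ((fun p : α × ℕ × σ => g p.1 p.2.1 p.2.2)
          (Denumerable.ofNat (α × ℕ × σ) (Nat.pair z (Nat.pair y IH))))) n =
      Encodable.encode (Nat.rec (motive := fun _ => σ) (f (Denumerable.ofNat α z))
        (g (Denumerable.ofNat α z)) n) := by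
    intro z n
    induction n with
    | zero => rfl
    | succ n ih =>
      simp only [ih]
      simp
  have h1 := LS.prec c hf hg (by
    intro z n
    rw [key]
    simpa using h (Denumerable.ofNat α z) n)
  refine h1.of_eq fun n => ?_
  rw [key]
  simp

/-! ### arithmetic -/

private theorem add_aux : LSf fun p : ℕ × ℕ => p.1 + p.2 := by
  refine (LSf.nat_rec (α := ℕ) (σ := ℕ) (f := fun z => z) (g := fun _ _ x => x + 1) 1 LSf.id
    (LSf.succ (LSf.snd (LSf.snd LSf.id))) ?_).of_eq ?_
  · intro a n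
    have : Nat.rec (motive := fun _ => ℕ) a (fun _ x => x + 1) n = a + n := by
      induction n with
      | zero => rfl
      | succ n ih => simp only [ih]; omega
    simp only [this]
    simp
  · rintro ⟨a, n⟩
    induction n with
    | zero => rfl
    | succ n ih => simp only at ih ⊢; omega

theorem LSf.add {f g : α → ℕ} (hf : LSf f) (hg : LSf g) : LSf fun a => f a + g a :=
  add_aux.comp (hf.pair hg)

private theorem mul_aux : LSf fun p : ℕ × ℕ => p.1 * p.2 := by
  have e : ∀ a n : ℕ, Nat.rec (motive := fun _ => ℕ) 0 (fun _ x => x + a) n = a * n := by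
    intro a n
    induction n with
    | zero => rfl
    | succ n ih => simp only [ih]; ring
  refine (LSf.nat_rec (α := ℕ) (σ := ℕ) (f := fun _ => 0) (g := fun z _ x => x + z) 2
    (LSf.const 0) (LSf.add (LSf.snd (LSf.snd LSf.id)) (LSf.fst LSf.id)) ?_).of_eq ?_
  · intro a n
    simp only [e]
    simp
    nlinarith
  · rintro ⟨a, n⟩
    exact e a n

theorem LSf.mul {f g : α → ℕ} (hf : LSf f) (hg : LSf g) : LSf fun a => f a * g a :=
  mul_aux.comp (hf.pair hg)

private theorem pred_aux : LSf fun n : ℕ => n - 1 := by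
  have e : ∀ a n : ℕ, Nat.rec (motive := fun _ => ℕ) 0 (fun y _ => y) n = n - 1 := by
    intro a n
    cases n <;> rfl
  refine ((LSf.nat_rec (α := ℕ) (σ := ℕ) (f := fun _ => 0) (g := fun _ y _ => y) 1
    (LSf.const 0) (LSf.fst (LSf.snd LSf.id)) ?_).comp ((LSf.const (α := ℕ) 0).pair LSf.id)).of_eq ?_
  · intro a n
    rw [e a n]
    simp
    omega
  · intro n
    exact e 0 n

theorem LSf.pred {f : α → ℕ} (hf : LSf f) : LSf fun a => f a - 1 := pred_aux.comp hf

private theorem sub_aux : LSf fun p : ℕ × ℕ => p.1 - p.2 := by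
  have e : ∀ a n : ℕ, Nat.rec (motive := fun _ => ℕ) a (fun _ x => x - 1) n = a - n := by
    intro a n
    induction n with
    | zero => rfl
    | succ n ih => simp only [ih]; omega
  refine (LSf.nat_rec (α := ℕ) (σ := ℕ) (f := fun z => z) (g := fun _ _ x => x - 1) 1 LSf.id
    (LSf.pred (LSf.snd (LSf.snd LSf.id))) ?_).of_eq ?_
  · intro a n
    simp only [e]
    simp
    omega
  · rintro ⟨a, n⟩
    exact e a n

theorem LSf.sub {f g : α → ℕ} (hf : LSf f) (hg : LSf g) : LSf fun a => f a - g a :=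
  sub_aux.comp (hf.pair hg)

theorem LSf.pow {f : α → ℕ} (hf : LSf f) (k : ℕ) : LSf fun a => f a ^ k := by
  induction k with
  | zero => exact (LSf.const 1).of_eq fun a => (pow_zero _).symm
  | succ k ih => exact (ih.mul hf).of_eq fun a => (pow_succ _ _).symm

theorem LSf.ite0 {c : α → ℕ} {f g : α → σ} (hc : LSf c) (hf : LSf f) (hg : LSf g) :
    LSf fun a => if c a = 0 then f a else g a := by
  obtain ⟨k, hk⟩ := LSf.bound hf.enc
  obtain ⟨l, hl⟩ := LSf.bound hg.enc
  have e : ∀ a n, Nat.rec (motive := fun _ => σ) (f a) (fun _ _ => g a) n =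
      if n = 0 then f a else g a := by
    intro a n
    cases n <;> rfl
  refine ((LSf.nat_rec (f := f) (g := fun a _ _ => g a) (k + l) hf (hg.comp (LSf.fst LSf.id))
    ?_).comp (LSf.id.pair hc)).of_eq ?_
  · intro a n
    rw [e]
    have e1 : (Encodable.encode a + 2) ^ k ≤ (Encodable.encode a + n + 2) ^ (k + l) :=
      (Nat.pow_le_pow_left (by omega) k).trans (Nat.pow_le_pow_right (by omega) (by omega))
    have e2 : (Encodable.encode a + 2) ^ l ≤ (Encodable.encode a + n + 2) ^ (k + l) :=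
      (Nat.pow_le_pow_left (by omega) l).trans (Nat.pow_le_pow_right (by omega) (by omega))
    split_ifs
    · exact (hk a).trans e1
    · exact (hl a).trans e2
  · intro a
    exact e a (c a)

/-- `P` is decided by a linear-space function (zero = true). -/
def LSp (P : α → Prop) : Prop := ∃ c : α → ℕ, LSf c ∧ ∀ a, c a = 0 ↔ P a

theorem LSf.ite {P : α → Prop} [DecidablePred P] {f g : α → σ} (hP : LSp P) (hf : LSf f)
    (hg : LSf g) : LSf fun a => if P a then f a else g a := by
  obtain ⟨c, hc, h⟩ := hP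
  refine (LSf.ite0 hc hf hg).of_eq fun a => ?_
  by_cases hp : P a
  · rw [if_pos hp, if_pos ((h a).2 hp)]
  · rw [if_neg hp, if_neg fun hh => hp ((h a).1 hh)]

theorem LSp.of_iff {P Q : α → Prop} (hP : LSp P) (h : ∀ a, P a ↔ Q a) : LSp Q := by
  obtain ⟨c, hc, hh⟩ := hP
  exact ⟨c, hc, fun a => (hh a).trans (h a)⟩

theorem LSp.not {P : α → Prop} (hP : LSp P) : LSp fun a => ¬ P a := by
  obtain ⟨c, hc, h⟩ := hP
  refine ⟨fun a => 1 - c a, (LSf.const 1).sub hc, fun a => ?_⟩
  show 1 - c a = 0 ↔ ¬ P a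
  rw [← h a]
  omega

theorem LSp.and {P Q : α → Prop} (hP : LSp P) (hQ : LSp Q) : LSp fun a => P a ∧ Q a := by
  obtain ⟨c, hc, h⟩ := hP
  obtain ⟨d, hd, h'⟩ := hQ
  refine ⟨fun a => c a + d a, hc.add hd, fun a => ?_⟩
  show c a + d a = 0 ↔ P a ∧ Q a
  rw [← h a, ← h' a]
  omega

theorem LSp.or {P Q : α → Prop} (hP : LSp P) (hQ : LSp Q) : LSp fun a => P a ∨ Q a := by
  obtain ⟨c, hc, h⟩ := hP
  obtain ⟨d, hd, h'⟩ := hQ
  refine ⟨fun a => c a * d a, hc.mul hd, fun a => ?_⟩
  show c a * d a = 0 ↔ P a ∨ Q a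
  rw [← h a, ← h' a, Nat.mul_eq_zero]

theorem LSp.comp {P : β → Prop} {f : α → β} (hP : LSp P) (hf : LSf f) : LSp fun a => P (f a) := by
  obtain ⟨c, hc, h⟩ := hP
  exact ⟨fun a => c (f a), hc.comp hf, fun a => h (f a)⟩

theorem LSp.le {f g : α → ℕ} (hf : LSf f) (hg : LSf g) : LSp fun a => f a ≤ g a :=
  ⟨fun a => f a - g a, hf.sub hg, fun a => by show f a - g a = 0 ↔ f a ≤ g a; omega⟩

theorem LSp.lt {f g : α → ℕ} (hf : LSf f) (hg : LSf g) : LSp fun a => f a < g a :=
  ⟨fun a => f a + 1 - g a, hf.succ.sub hg, fun a => by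
    show f a + 1 - g a = 0 ↔ f a < g a; omega⟩

theorem LSp.eq {f g : α → ℕ} (hf : LSf f) (hg : LSf g) : LSp fun a => f a = g a :=
  ⟨fun a => (f a - g a) + (g a - f a), (hf.sub hg).add (hg.sub hf), fun a => by
    show (f a - g a) + (g a - f a) = 0 ↔ f a = g a; omega⟩

theorem LSp.ne {f g : α → ℕ} (hf : LSf f) (hg : LSf g) : LSp fun a => f a ≠ g a :=
  (LSp.eq hf hg).not

theorem LSf.min {f g : α → ℕ} (hf : LSf f) (hg : LSf g) : LSf fun a => min (f a) (g a) :=
  (LSf.ite (P := fun a => f a ≤ g a) (LSp.le hf hg) hf hg).of_eq fun a => by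
    split_ifs with h
    · exact (min_eq_left h).symm
    · exact (min_eq_right (by omega)).symm

theorem LSf.max {f g : α → ℕ} (hf : LSf f) (hg : LSf g) : LSf fun a => max (f a) (g a) :=
  (LSf.ite (P := fun a => f a ≤ g a) (LSp.le hf hg) hg hf).of_eq fun a => by
    split_ifs with h
    · exact (max_eq_right h).symm
    · exact (max_eq_left (by omega)).symm

/-- General bounded recursion: the bound is only needed up to the number of steps used. -/
theorem LSf.rec {f : α → σ} {g : α → ℕ → σ → σ} {N B : α → ℕ} (hf : LSf f)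
    (hg : LSf fun p : α × ℕ × σ => g p.1 p.2.1 p.2.2) (hN : LSf N) (hB : LSf B)
    (h : ∀ a n, n ≤ N a →
      Encodable.encode (Nat.rec (motive := fun _ => σ) (f a) (g a) n) ≤ B a) :
    LSf fun a => Nat.rec (motive := fun _ => σ) (f a) (g a) (N a) := by
  obtain ⟨k, hk⟩ := LSf.bound hB
  have e : ∀ a n, Nat.rec (motive := fun _ => σ) (f a) (fun y x => if y < N a then g a y x else x) n =
      Nat.rec (motive := fun _ => σ) (f a) (g a) (Min.min n (N a)) := by
    intro a n
    induction n with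
    | zero => simp
    | succ n ih =>
      simp only [ih]
      split_ifs with hn
      · rw [Nat.min_eq_left (show n + 1 ≤ N a by omega), Nat.min_eq_left (show n ≤ N a by omega)]
      · rw [Nat.min_eq_right (show N a ≤ n + 1 by omega), Nat.min_eq_right (show N a ≤ n by omega)]
  have hg' : LSf fun p : α × ℕ × σ => if p.2.1 < N p.1 then g p.1 p.2.1 p.2.2 else p.2.2 :=
    LSf.ite (P := fun p : α × ℕ × σ => p.2.1 < N p.1)
      (LSp.lt (LSf.fst (LSf.snd LSf.id)) (hN.comp (LSf.fst LSf.id))) hg (LSf.snd (LSf.snd LSf.id))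
  refine ((LSf.nat_rec (f := f) (g := fun a y x => if y < N a then g a y x else x) k hf hg'
    ?_).comp (LSf.id.pair hN)).of_eq ?_
  · intro a n
    rw [e]
    exact ((h a _ (Nat.min_le_right _ _)).trans (hk a)).trans (Nat.pow_le_pow_left (by omega) k)
  · intro a
    simp only [e, Nat.min_self]

theorem runTo_eq_rec {X : Type} (f : ℕ → X → X) (n : ℕ) (x : X) :
    runTo f n x = Nat.rec (motive := fun _ => X) x f n := by
  induction n with
  | zero => rfl
  | succ n ih => simp only [runTo, ih]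

/-- Bounded iteration with `runTo`. -/
theorem LSf.runTo {f : α → σ} {g : α → ℕ → σ → σ} {N B : α → ℕ} (hf : LSf f)
    (hg : LSf fun p : α × ℕ × σ => g p.1 p.2.1 p.2.2) (hN : LSf N) (hB : LSf B)
    (h : ∀ a n, n ≤ N a → Encodable.encode (runTo (g a) n (f a)) ≤ B a) :
    LSf fun a => LCA.runTo (g a) (N a) (f a) :=
  (LSf.rec hf hg hN hB (fun a n hn => by rw [← runTo_eq_rec]; exact h a n hn)).of_eq
    fun a => (runTo_eq_rec _ _ _).symm

/-- Bounded iteration of a map. -/
theorem LSf.iterate {f : α → σ} {g : α → σ → σ} {N B : α → ℕ} (hf : LSf f)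
    (hg : LSf fun p : α × σ => g p.1 p.2) (hN : LSf N) (hB : LSf B)
    (h : ∀ a n, n ≤ N a → Encodable.encode ((g a)^[n] (f a)) ≤ B a) :
    LSf fun a => (g a)^[N a] (f a) := by
  have e : ∀ a n, Nat.rec (motive := fun _ => σ) (f a) (fun _ x => g a x) n = (g a)^[n] (f a) := by
    intro a n
    induction n with
    | zero => rfl
    | succ n ih => simp only [ih, Function.iterate_succ_apply']
  refine (LSf.rec (g := fun a _ x => g a x) hf
    (hg.comp ((LSf.fst LSf.id).pair (LSf.snd (LSf.snd LSf.id)))) hN hB ?_).of_eq fun a => e a _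
  intro a n hn
  rw [e]
  exact h a n hn

/-- Sums. -/
theorem LSf.sum {n : α → ℕ} {f : α → ℕ → ℕ} (hn : LSf n) (hf : LSf fun p : α × ℕ => f p.1 p.2) :
    LSf fun a => ∑ i ∈ range (n a), f a i := by
  obtain ⟨c, hc⟩ := LSf.bound hf
  have hcode : LSf fun a : α => Encodable.encode a := LSf.enc LSf.id
  have hB : LSf fun a => n a * ((Encodable.encode a + n a + 1) ^ 2 + 2) ^ c :=
    hn.mul ((((hcode.add hn).succ.pow 2).succ.succ).pow c)
  have e : ∀ a m, Nat.rec (motive := fun _ => ℕ) 0 (fun i x => x + f a i) m =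
      ∑ i ∈ range m, f a i := by
    intro a m
    induction m with
    | zero => rfl
    | succ m ih => simp only [ih, Finset.sum_range_succ]
  refine (LSf.rec (f := fun _ => 0) (g := fun a i x => x + f a i) (LSf.const 0)
    ((LSf.snd (LSf.snd LSf.id)).add (hf.comp ((LSf.fst LSf.id).pair (LSf.fst (LSf.snd LSf.id)))))
    hn hB ?_).of_eq fun a => e a _
  intro a m hm
  rw [e]
  have h1 : ∀ i ∈ range m, f a i ≤ ((Encodable.encode a + n a + 1) ^ 2 + 2) ^ c := by
    intro i hi
    have hi' : i < n a := lt_of_lt_of_le (Finset.mem_range.1 hi) hm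
    refine (hc (a, i)).trans (Nat.pow_le_pow_left ?_ c)
    have h2 := pair_le_sq (Encodable.encode a) i
    have h3 : (Encodable.encode a + i + 1) ^ 2 ≤ (Encodable.encode a + n a + 1) ^ 2 :=
      Nat.pow_le_pow_left (by omega) 2
    simp only [Encodable.encode_prod_val, Encodable.encode_nat]
    omega
  calc Encodable.encode (∑ i ∈ range m, f a i) = ∑ i ∈ range m, f a i := rfl
    _ ≤ ∑ _i ∈ range m, ((Encodable.encode a + n a + 1) ^ 2 + 2) ^ c := Finset.sum_le_sum h1
    _ = m * ((Encodable.encode a + n a + 1) ^ 2 + 2) ^ c := by simp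
    _ ≤ _ := Nat.mul_le_mul_right _ hm

theorem LSf.powc {b e C : α → ℕ} (hb : LSf b) (he : LSf e) (hC : LSf C) :
    LSf fun a => powc (b a) (e a) (C a) := by
  have key : ∀ a n, Nat.rec (motive := fun _ => ℕ) (Min.min 1 (C a))
      (fun _ x => Min.min (x * b a) (C a)) n = LCA.powc (b a) n (C a) := by
    intro a n
    induction n with
    | zero => simp [LCA.powc]
    | succ n ih =>
      simp only [ih, LCA.powc, pow_succ]
      rcases le_total (b a ^ n) (C a) with h | h
      · rw [Nat.min_eq_left h]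
      · rw [Nat.min_eq_right h]
        rcases Nat.eq_zero_or_pos (b a) with h0 | h0
        · simp [h0]
        · rw [Nat.min_eq_right (Nat.le_mul_of_pos_right _ h0),
            Nat.min_eq_right (h.trans (Nat.le_mul_of_pos_right _ h0))]
  refine (LSf.rec (f := fun a => Min.min 1 (C a)) (g := fun a _ x => Min.min (x * b a) (C a))
    ((LSf.const 1).min hC)
    (((LSf.snd (LSf.snd LSf.id)).mul (hb.comp (LSf.fst LSf.id))).min (hC.comp (LSf.fst LSf.id)))
    he hC ?_).of_eq fun a => key a _
  intro a n _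
  rw [key]
  exact Nat.min_le_right _ _

theorem LSf.div {f g : α → ℕ} (hf : LSf f) (hg : LSf g) : LSf fun a => f a / g a := by
  have h1 : LSf fun a => ∑ i ∈ range (f a), if (i + 1) * g a ≤ f a then 1 else 0 := by
    refine LSf.sum hf (LSf.ite (P := fun p : α × ℕ => (p.2 + 1) * g p.1 ≤ f p.1) (LSp.le
      ((LSf.snd LSf.id).succ.mul (hg.comp (LSf.fst LSf.id))) (hf.comp (LSf.fst LSf.id)))
      (LSf.const 1) (LSf.const 0))
  refine (LSf.ite0 hg (LSf.const 0) h1).of_eq fun a => ?_
  split_ifs with h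
  · rw [h, Nat.div_zero]
  · have hg0 : 0 < g a := Nat.pos_of_ne_zero h
    have h2 : ∀ m, m ≤ f a → (∑ i ∈ range m, if (i + 1) * g a ≤ f a then 1 else 0) =
        Min.min m (f a / g a) := by
      intro m
      induction m with
      | zero => intro _; simp
      | succ m ih =>
        intro hm
        rw [Finset.sum_range_succ, ih (by omega)]
        by_cases h3 : (m + 1) * g a ≤ f a
        · rw [if_pos h3]
          have := (Nat.le_div_iff_mul_le hg0).2 h3
          omega
        · rw [if_neg h3]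
          have : ¬ (m + 1 ≤ f a / g a) := fun hh => h3 ((Nat.le_div_iff_mul_le hg0).1 hh)
          omega
    rw [h2 _ le_rfl]
    exact Nat.min_eq_right (Nat.div_le_self _ _)

theorem LSf.mod {f g : α → ℕ} (hf : LSf f) (hg : LSf g) : LSf fun a => f a % g a :=
  (hf.sub (hg.mul (hf.div hg))).of_eq fun a => by
    have := Nat.div_add_mod (f a) (g a)
    omega

/-- Division by a power of any size. -/
theorem LSf.divPow {b x i : α → ℕ} (hb : LSf b) (hx : LSf x) (hi : LSf i) :
    LSf fun a => x a / b a ^ i a :=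
  (hx.div (LSf.powc hb hi hx.succ)).of_eq fun a => by
    unfold LCA.powc
    rcases le_total (b a ^ i a) (x a + 1) with h | h
    · rw [Nat.min_eq_left h]
    · rw [Nat.min_eq_right h, Nat.div_eq_of_lt (Nat.lt_succ_self _), Nat.div_eq_of_lt (by omega)]

/-- Remainder modulo a power of any size. -/
theorem LSf.modPow {b x i : α → ℕ} (hb : LSf b) (hx : LSf x) (hi : LSf i) :
    LSf fun a => x a % b a ^ i a :=
  (hx.mod (LSf.powc hb hi hx.succ)).of_eq fun a => by
    unfold LCA.powc
    rcases le_total (b a ^ i a) (x a + 1) with h | h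
    · rw [Nat.min_eq_left h]
    · rw [Nat.min_eq_right h, Nat.mod_eq_of_lt (Nat.lt_succ_self _), Nat.mod_eq_of_lt (by omega)]

theorem LSf.dig {b x i : α → ℕ} (hb : LSf b) (hx : LSf x) (hi : LSf i) :
    LSf fun a => dig (b a) (x a) (i a) := (LSf.divPow hb hx hi).mod hb

end typed

end Pool.Agent.Lib.MP_2eed13_lc.LCA
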