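import Mathlib

/-!
# Linear cellular arrays: definitions and module statements of project LCA

Paper: `Paper.md` in this folder. Every module proves one of the `...Statement`s below.
-/

set_option autoImplicit false

namespace Pool.Agent.Lib.MP_2eed13_lc.LCA

open Finset

/-! ## 1. Arrays on unary words -/

/-- One synchronous step of a two-way array: a configuration is a map `ℕ → Option Q`, the cells are
the places holding `some q` (they are `1, …, n`), all other places hold `none`. -/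
def aStep {Q : Type} (δ : Option Q → Q → Option Q → Q) (c : ℕ → Option Q) (i : ℕ) : Option Q :=
  (c i).map fun q => δ (c (i - 1)) q (c (i + 1))

/-- The initial configuration on the unary word of length `n`. -/
def aInit {Q : Type} (s : Q) (n : ℕ) (i : ℕ) : Option Q := if 1 ≤ i ∧ i ≤ n then some s else none

/-- At time `t` the leftmost cell is in an accepting state. -/
def aAcc {Q : Type} (δ : Option Q → Q → Option Q → Q) (s : Q) (F : Set Q) (n t : ℕ) : Prop :=
  ∃ q ∈ F, (aStep δ)^[t] (aInit s n) 1 = some q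

/-- The set of lengths `D` is accepted by an array (without time bound). -/
def Acceptable (D : ℕ → Prop) : Prop :=
  ∃ (Q : Type) (_ : Finite Q) (s : Q) (δ : Option Q → Q → Option Q → Q) (F : Set Q),
    ∀ n, 1 ≤ n → (D n ↔ ∃ t, aAcc δ s F n t)

/-! ## 2. Sweeping machines -/

/-- A finite transducer that sweeps again and again from left to right over `n` data cells. -/
structure Sweep where
  S : Type
  D : Type
  finS : Finite S
  finD : Finite D
  pass : S → D → S × D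
  turn : S → S
  s0 : S
  d0 : D

/-- The signal arriving at data cell `k` in the round that starts with signal `s`. -/
def Sweep.sig (M : Sweep) (s : M.S) (d : ℕ → M.D) : ℕ → M.S
  | 0 => M.turn s
  | k + 1 => (M.pass (M.sig s d k) (d k)).1

/-- One round over the data cells `0, …, n-1`. -/
def Sweep.round (M : Sweep) (n : ℕ) (x : M.S × (ℕ → M.D)) : M.S × (ℕ → M.D) :=
  (M.sig x.1 x.2 n, fun k => if k < n then (M.pass (M.sig x.1 x.2 k) (x.2 k)).2 else x.2 k)

/-- SWEEP: sweeping machines are simulated by arrays. -/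
def SweepStatement : Prop := ∀ (M : Sweep) (A : Set M.S),
  Acceptable fun n => ∃ r, ((M.round n)^[r] (M.s0, fun _ => M.d0)).1 ∈ A

/-! ## 3. Programs with bounded registers -/

/-- While programs. Register `0` is special: it holds the length `n` at the beginning and may only be
decremented. -/
inductive Cmd
  | inc (i : ℕ)
  | dec (i : ℕ)
  | seq (p q : Cmd)
  | loop (i : ℕ) (p : Cmd)

/-- Big-step semantics; every increment keeps the register below `Bd`. -/
inductive Exec (Bd : ℕ) : Cmd → (ℕ → ℕ) → (ℕ → ℕ) → Prop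
  | inc {i : ℕ} {σ : ℕ → ℕ} : i ≠ 0 → σ i + 1 < Bd →
      Exec Bd (.inc i) σ (Function.update σ i (σ i + 1))
  | dec {i : ℕ} {σ : ℕ → ℕ} : Exec Bd (.dec i) σ (Function.update σ i (σ i - 1))
  | seq {p q : Cmd} {σ τ υ : ℕ → ℕ} : Exec Bd p σ τ → Exec Bd q τ υ → Exec Bd (.seq p q) σ υ
  | loop_zero {i : ℕ} {p : Cmd} {σ : ℕ → ℕ} : σ i = 0 → Exec Bd (.loop i p) σ σ
  | loop_pos {i : ℕ} {p : Cmd} {σ τ υ : ℕ → ℕ} : σ i ≠ 0 → Exec Bd p σ τ →
      Exec Bd (.loop i p) τ υ → Exec Bd (.loop i p) σ υ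

/-- Kinds of instructions of a register machine. -/
inductive Kind
  | test
  | inc
  | dec

/-- Register machines in label form; `next l z` is the label after `l`, where `z` tells whether the
register was zero before the instruction. -/
structure Goto where
  L : Type
  finL : Finite L
  reg : L → ℕ
  kind : L → Kind
  next : L → Bool → L

/-- The new value of the register of an instruction. -/
def Kind.app : Kind → ℕ → ℕ
  | .test, v => v
  | .inc, v => v + 1
  | .dec, v => v - 1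

/-- One step of a register machine. -/
def Goto.step (G : Goto) (x : G.L × (ℕ → ℕ)) : G.L × (ℕ → ℕ) :=
  (G.next x.1 (decide (x.2 (G.reg x.1) = 0)),
    Function.update x.2 (G.reg x.1) ((G.kind x.1).app (x.2 (G.reg x.1))))

/-- The next instruction is harmless: increments stay below `Bd` and do not touch register `0`,
decrements are only applied to nonzero registers. -/
def Goto.Safe (G : Goto) (Bd : ℕ) (x : G.L × (ℕ → ℕ)) : Prop :=
  (G.kind x.1 = Kind.inc → G.reg x.1 ≠ 0 ∧ x.2 (G.reg x.1) + 1 < Bd) ∧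
  (G.kind x.1 = Kind.dec → x.2 (G.reg x.1) ≠ 0)

/-- GOTO: while programs are simulated by register machines (final test of register `1`). -/
def GotoStatement : Prop := ∀ p : Cmd, ∃ (G : Goto) (l0 acc rej : G.L), acc ≠ rej ∧
  (∀ b, G.next acc b = acc) ∧ (∀ b, G.next rej b = rej) ∧
  G.kind acc = Kind.test ∧ G.kind rej = Kind.test ∧
  ∀ (Bd : ℕ) (σ τ : ℕ → ℕ), Exec Bd p σ τ →
    (∀ t, G.Safe Bd (G.step^[t] (l0, σ))) ∧
    ∃ t, (G.step^[t] (l0, σ)).1 = if τ 1 = 0 then rej else acc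

/-- The initial registers: register `0` holds `n`, all others hold `0`. -/
def initReg (n : ℕ) : ℕ → ℕ := fun i => if i = 0 then n else 0

/-- DIGIT: register machines with registers below `b ^ n` are simulated by sweeping machines
(register `0` is stored in unary, the others in base `b`). -/
def DigitStatement : Prop := ∀ (G : Goto) (l0 : G.L) (b : ℕ), 2 ≤ b →
  ∃ (M : Sweep) (lab : M.S → G.L), ∀ n, 1 ≤ n →
    (∀ t, G.Safe (b ^ n) (G.step^[t] (l0, initReg n))) →
    ∀ t, lab ((M.round n)^[t] (M.s0, fun _ => M.d0)).1 = (G.step^[t] (l0, initReg n)).1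

/-- COMPILE: consequence of SWEEP, GOTO and DIGIT. -/
def CompileStatement : Prop := ∀ (p : Cmd) (b : ℕ) (D : ℕ → Prop), 2 ≤ b →
  (∀ n, 1 ≤ n → ∃ τ, Exec (b ^ n) p (initReg n) τ ∧ (τ 1 ≠ 0 ↔ D n)) → Acceptable D

/-! ## 4. Linear-space functions -/

/-- Bounded recursion: the functions `ℕ → ℕ` of linear space (Ritchie's and Grzegorczyk's class
`E²` with pairing). -/
inductive LS : (ℕ → ℕ) → Prop
  | zero : LS fun _ => 0
  | succ : LS Nat.succ
  | left : LS fun n => n.unpair.1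
  | right : LS fun n => n.unpair.2
  | pair {f g : ℕ → ℕ} : LS f → LS g → LS fun n => Nat.pair (f n) (g n)
  | comp {f g : ℕ → ℕ} : LS f → LS g → LS fun n => f (g n)
  | prec {f g : ℕ → ℕ} (c : ℕ) : LS f → LS g →
      (∀ z n : ℕ, Nat.rec (motive := fun _ => ℕ) (f z)
        (fun y IH => g (Nat.pair z (Nat.pair y IH))) n ≤ (z + n + 2) ^ c) →
      LS fun x => Nat.rec (motive := fun _ => ℕ) (f x.unpair.1)
        (fun y IH => g (Nat.pair x.unpair.1 (Nat.pair y IH))) x.unpair.2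

/-- A program computing `f` in place in register `1`, with temporaries `2, …, R-1` and
polynomially bounded registers. -/
def Computes (p : Cmd) (f : ℕ → ℕ) : Prop :=
  ∃ R c : ℕ, 2 ≤ R ∧ (∀ x, f x ≤ (x + 2) ^ c) ∧
    ∀ (x Bd : ℕ) (σ : ℕ → ℕ), (x + 2) ^ c < Bd → σ 1 = x →
      (∀ i, 2 ≤ i → i < R → σ i = 0) → Exec Bd p σ (Function.update σ 1 (f x))

/-- `f` is computed by some program. -/
def Prog (f : ℕ → ℕ) : Prop := ∃ p, Computes p f

/-- PZERO -/
def ProgZeroStatement : Prop := Prog fun _ => 0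
/-- PSUCC -/
def ProgSuccStatement : Prop := Prog Nat.succ
/-- PCOMP -/
def ProgCompStatement : Prop := ∀ f g : ℕ → ℕ, Prog f → Prog g → Prog fun n => f (g n)
/-- PUNP -/
def ProgUnpairStatement : Prop := (Prog fun n => n.unpair.1) ∧ Prog fun n => n.unpair.2
/-- PPAIR -/
def ProgPairStatement : Prop :=
  ∀ f g : ℕ → ℕ, Prog f → Prog g → Prog fun n => Nat.pair (f n) (g n)
/-- PPREC -/
def ProgPrecStatement : Prop := ∀ (f g : ℕ → ℕ) (c : ℕ), Prog f → Prog g →
  (∀ z n : ℕ, Nat.rec (motive := fun _ => ℕ) (f z)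
    (fun y IH => g (Nat.pair z (Nat.pair y IH))) n ≤ (z + n + 2) ^ c) →
  Prog fun x => Nat.rec (motive := fun _ => ℕ) (f x.unpair.1)
    (fun y IH => g (Nat.pair x.unpair.1 (Nat.pair y IH))) x.unpair.2
/-- TOP: from a program for `f` to an array deciding `f (2 ^ n) ≠ 0`. -/
def TopStatement : Prop := ∀ f : ℕ → ℕ, Prog f → Acceptable fun n => f (2 ^ n) ≠ 0
/-- MACHINE: the machine half of the proof. -/
def MachineStatement : Prop := ∀ f : ℕ → ℕ, LS f → Acceptable fun n => f (2 ^ n) ≠ 0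

/-! ## 5. Blocks of the space-time diagram, coded by numbers -/

/-- Truncated power. -/
def powc (b e C : ℕ) : ℕ := min (b ^ e) C

/-- The digit number `i` of `x` in base `b`. -/
def dig (b x i : ℕ) : ℕ := x / b ^ i % b

/-- The local rule coded by the number `T` (states `0, …, q-1`; `0` = no cell). -/
def rule (q T l c r : ℕ) : ℕ := dig q T ((l * q + c) * q + r)

/-- One step of the array on a row of `w` states. -/
def rowStep (C q T w x : ℕ) : ℕ :=
  ∑ i ∈ range w, rule q T (if i = 0 then 0 else dig q x (i - 1)) (dig q x i) (dig q x (i + 1)) *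
    powc q i C

/-- `B` steps on a row of `3 B` states, restricted to the `B` places in the middle. -/
def blockMap (C q T B x : ℕ) : ℕ :=
  (rowStep C q T (3 * B))^[B] x / powc q B C % powc q B C

/-- The initial content of block number `i`, i.e. of the places `(i - J) B, …, (i - J) B + B - 1`. -/
def cont (C q s B J n i : ℕ) : ℕ :=
  ∑ k ∈ range B, (if J * B + 1 ≤ i * B + k ∧ i * B + k ≤ n + J * B then s else 0) * powc q k C

/-- The tree of values: `G` is the block map, `L i` the value of leaf `i`, blocks are numbers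
`< 2 ^ b`. -/
def tval (b : ℕ) (G L : ℕ → ℕ) : ℕ → ℕ → ℕ
  | 0, i => L i
  | j + 1, i => G (tval b G L j (i - 1) + tval b G L j i * 2 ^ b +
      tval b G L j (i + 1) * 2 ^ (2 * b))

/-- ROW: the block map computes the middle block after `B` steps of the coded rule. -/
def RowStatement : Prop := ∀ (β T B C : ℕ) (_ : 1 ≤ β) (_ : 1 ≤ B) (_ : 2 ^ (3 * (B * β)) ≤ C)
  (cfg : ℕ → ℤ → ℕ), (∀ t z, cfg t z < 2 ^ β) →
  (∀ t z, cfg (t + 1) z = rule (2 ^ β) T (cfg t (z - 1)) (cfg t z) (cfg t (z + 1))) →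
  ∀ (t : ℕ) (z : ℤ), blockMap C (2 ^ β) T B (∑ k ∈ range (3 * B), cfg t (z + k) * (2 ^ β) ^ k) =
    ∑ k ∈ range B, cfg (t + B) (z + B + k) * (2 ^ β) ^ k

/-- CODE: every array can be coded, with a sticky acceptance flag in bit `0` of the codes. -/
def CodeStatement : Prop := ∀ (Q : Type) (_ : Finite Q) (s : Q)
  (δ : Option Q → Q → Option Q → Q) (F : Set Q),
  ∃ β T s0 : ℕ, 1 ≤ β ∧ s0 < 2 ^ β ∧ ∀ n : ℕ, 1 ≤ n → ∃ cfg : ℕ → ℤ → ℕ,
    (∀ t z, cfg t z < 2 ^ β) ∧
    (∀ t z, cfg (t + 1) z = rule (2 ^ β) T (cfg t (z - 1)) (cfg t z) (cfg t (z + 1))) ∧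
    (∀ z : ℤ, cfg 0 z = if 1 ≤ z ∧ z ≤ n then s0 else 0) ∧
    ∀ t, (cfg t 1 % 2 = 1 ↔ ∃ t', t' ≤ t ∧ aAcc δ s F n t')

/-- BLOCK (consequence of ROW and CODE): the content of cell `1` at time `J B` (with sticky acceptance flag in bit `0` of its
code) is found in the value of the root. -/
def BlockStatement : Prop := ∀ (Q : Type) (_ : Finite Q) (s : Q)
  (δ : Option Q → Q → Option Q → Q) (F : Set Q),
  ∃ β T s0 : ℕ, 1 ≤ β ∧ s0 < 2 ^ β ∧ ∀ n B J C : ℕ, 1 ≤ n → 2 ≤ B → 2 ^ (3 * (B * β)) ≤ C →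
    (dig 2 (tval (B * β) (blockMap C (2 ^ β) T B) (cont C (2 ^ β) s0 B J n) J J) β = 1 ↔
      ∃ t, t ≤ J * B ∧ aAcc δ s F n t)

/-! ## 6. The catalytic evaluation over `ZMod p` -/

/-- The three registers different from `r`. -/
def regOf (r c : ℕ) : ℕ := (r + 1 + c) % 4

/-- The sign `+1` (for `s = 0`) or `-1`. -/
def sgn (p s : ℕ) : ZMod p := if s = 0 then 1 else -1

/-- Add `z * c` to register `r`. -/
def addA {p : ℕ} (r : ℕ) (z : ZMod p) (c : ℕ → ZMod p) (R : ℕ → ℕ → ZMod p) : ℕ → ℕ → ZMod p :=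
  fun r' k => if r' = r then R r' k + z * c k else R r' k

/-- Multiply all registers except `r` by `a`. -/
def scaleA {p : ℕ} (r : ℕ) (a : ZMod p) (R : ℕ → ℕ → ZMod p) : ℕ → ℕ → ZMod p :=
  fun r' k => if r' = r then R r' k else a * R r' k

/-- The bits of `x`. -/
def bitsA (p x : ℕ) : ℕ → ZMod p := fun k => (dig 2 x k : ZMod p)

/-- The multilinear extension of bit `k` of `G`. -/
def extA (p b : ℕ) (G : ℕ → ℕ) (X : ℕ → ZMod p) (k : ℕ) : ZMod p :=
  ∑ u ∈ range (2 ^ (3 * b)), (dig 2 (G u) k : ZMod p) *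
    ∏ v ∈ range (3 * b), (if dig 2 u v = 1 then X v else 1 - X v)

/-- The variables: the contents of the three registers different from `r`. -/
def varA {p : ℕ} (b r : ℕ) (R : ℕ → ℕ → ZMod p) (v : ℕ) : ZMod p :=
  R (regOf r (v / b)) (v % b)

/-- Run `f 0, f 1, …, f (N-1)` one after the other. -/
def runTo {X : Type} (f : ℕ → X → X) : ℕ → X → X
  | 0, x => x
  | n + 1, x => f n (runTo f n x)

/-- Time slot `d` of a node: `sub i r s` is the action of a child node. -/
def slot (p b : ℕ) (G : ℕ → ℕ)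
    (sub : ℕ → ℕ → ℕ → (ℕ → ℕ → ZMod p) → (ℕ → ℕ → ZMod p))
    (i r s d : ℕ) (R : ℕ → ℕ → ZMod p) : ℕ → ℕ → ZMod p :=
  if d % 9 = 0 then scaleA r ((d / 9 + 1 : ℕ) : ZMod p) R
  else if d % 9 ≤ 3 then sub (i + d % 9 - 2) (regOf r (d % 9 - 1)) 0 R
  else if d % 9 = 4 then addA r (-(sgn p s)) (extA p b G (varA b r R)) R
  else if d % 9 ≤ 7 then sub (i + d % 9 - 6) (regOf r (d % 9 - 5)) 1 R
  else scaleA r ((d / 9 + 1 : ℕ) : ZMod p)⁻¹ R

/-- The catalytic procedure of node `(j, i)` with target register `r` and sign `s`. -/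
def PA (p b : ℕ) (G L : ℕ → ℕ) : ℕ → ℕ → ℕ → ℕ → (ℕ → ℕ → ZMod p) → (ℕ → ℕ → ZMod p)
  | 0, i, r, s => addA r (sgn p s) (bitsA p (L i))
  | j + 1, i, r, s => fun R => runTo (fun d => slot p b G (PA p b G L j) i r s d) (9 * (p - 1)) R

/-- The slots that call a child. -/
def isCall (d : ℕ) : Prop := d % 9 = 1 ∨ d % 9 = 2 ∨ d % 9 = 3 ∨ d % 9 = 5 ∨ d % 9 = 6 ∨ d % 9 = 7

instance (d : ℕ) : Decidable (isCall d) := by unfold isCall; infer_instance

/-- The action of the same procedure at the time `t < (9 (p-1)) ^ j`. -/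
def actA (p b : ℕ) (G L : ℕ → ℕ) : ℕ → ℕ → ℕ → ℕ → ℕ → (ℕ → ℕ → ZMod p) → (ℕ → ℕ → ZMod p)
  | 0, _, i, r, s => addA r (sgn p s) (bitsA p (L i))
  | j + 1, t, i, r, s => fun R =>
      if isCall (t / (9 * (p - 1)) ^ j) ∨ t % (9 * (p - 1)) ^ j = 0 then
        slot p b G (fun i' r' s' => actA p b G L j (t % (9 * (p - 1)) ^ j) i' r' s') i r s
          (t / (9 * (p - 1)) ^ j) R
      else R

/-- SUM: the interpolation identity. -/
def SumStatement : Prop := ∀ (p b : ℕ) (_ : p.Prime) (_ : 3 * b + 1 < p) (G : ℕ → ℕ) (w k : ℕ)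
  (τ : ℕ → ZMod p), w < 2 ^ (3 * b) →
  ∑ a ∈ range (p - 1), extA p b G (fun v => ((a + 1 : ℕ) : ZMod p) * τ v + (dig 2 w v : ZMod p)) k =
    -(dig 2 (G w) k : ZMod p)

/-- CAT: the net effect of the catalytic procedure. -/
def CatStatement : Prop := ∀ (p b : ℕ) (_ : p.Prime) (_ : 3 * b + 1 < p) (_ : 1 ≤ b)
  (G L : ℕ → ℕ) (_ : ∀ u, G u < 2 ^ b) (_ : ∀ i, L i < 2 ^ b) (j i r s : ℕ) (_ : r < 4)
  (R : ℕ → ℕ → ZMod p),
  PA p b G L j i r s R = addA r (sgn p s) (bitsA p (tval b G L j i)) R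

/-- TIME: the time-indexed form runs the procedure. -/
def TimeStatement : Prop := ∀ (p b : ℕ) (_ : 2 ≤ p) (G L : ℕ → ℕ) (j i r s : ℕ)
  (R : ℕ → ℕ → ZMod p),
  runTo (fun t => actA p b G L j t i r s) ((9 * (p - 1)) ^ j) R = PA p b G L j i r s R

/-! ## 7. The same evaluation on numbers -/

/-- The number with digits `f 0, …, f (N-1)` in base `p`. -/
def mk (C p N : ℕ) (f : ℕ → ℕ) : ℕ := ∑ i ∈ range N, f i * powc p i C

/-- Multiply all registers except `r` by `a`. -/
def scaleN (C p b r a R : ℕ) : ℕ :=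
  mk C p (4 * b) fun i => if i / b = r then dig p R i else a * dig p R i % p

/-- Add (`s = 0`) or subtract the vector `c` in register `r`. -/
def addN (C p b r s : ℕ) (c : ℕ → ℕ) (R : ℕ) : ℕ :=
  mk C p (4 * b) fun i =>
    if i / b = r then
      (if s = 0 then (dig p R i + c (i % b)) % p else (dig p R i + (p - c (i % b) % p)) % p)
    else dig p R i

/-- Product modulo `p`. -/
def prodMod (p : ℕ) (f : ℕ → ℕ) : ℕ → ℕ
  | 0 => 1
  | v + 1 => prodMod p f v * f v % p

/-- The weight of the point `u` of the cube. -/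
def wtN (p b r R u : ℕ) : ℕ :=
  prodMod p (fun v => if dig 2 u v = 1 then dig p R (regOf r (v / b) * b + v % b)
    else (p + 1 - dig p R (regOf r (v / b) * b + v % b)) % p) (3 * b)

/-- The multilinear extension of bit `k` of the block map. -/
def extN (C q T B p b r R k : ℕ) : ℕ :=
  (∑ u ∈ range (powc 2 (3 * b) C), dig 2 (blockMap C q T B u) k * wtN p b r R u) % p

/-- `a ^ e` modulo `p`. -/
def powMod (p a : ℕ) : ℕ → ℕ
  | 0 => 1
  | e + 1 => powMod p a e * a % p

/-- The operations on the number `R` coding the registers, by tag. -/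
def opN (C q T s0 B J n p b tag r s i a R : ℕ) : ℕ :=
  if tag = 0 then addN C p b r s (fun k => dig 2 (cont C q s0 B J n i) k) R
  else if tag = 1 then R
  else if tag = 2 then scaleN C p b r a R
  else if tag = 3 then addN C p b r (1 - s) (fun k => extN C q T B p b r R k) R
  else scaleN C p b r (powMod p a (p - 2)) R

/-- One step of the descent in the tree at time `t`; the state is `(tag, r, s, i, a)`. -/
def descStep (M J t k : ℕ) (x : ℕ × ℕ × ℕ × ℕ × ℕ) : ℕ × ℕ × ℕ × ℕ × ℕ :=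
  if x.1 ≠ 0 then x
  else if t / M ^ (J - 1 - k) % M % 9 = 0 then
    (if t % M ^ (J - 1 - k) = 0 then
      (2, x.2.1, x.2.2.1, x.2.2.2.1, t / M ^ (J - 1 - k) % M / 9 + 1) else (1, 0, 0, 0, 0))
  else if t / M ^ (J - 1 - k) % M % 9 ≤ 3 then
    (0, regOf x.2.1 (t / M ^ (J - 1 - k) % M % 9 - 1), 0,
      x.2.2.2.1 + t / M ^ (J - 1 - k) % M % 9 - 2, 0)
  else if t / M ^ (J - 1 - k) % M % 9 = 4 then
    (if t % M ^ (J - 1 - k) = 0 then
      (3, x.2.1, x.2.2.1, x.2.2.2.1, t / M ^ (J - 1 - k) % M / 9 + 1) else (1, 0, 0, 0, 0))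
  else if t / M ^ (J - 1 - k) % M % 9 ≤ 7 then
    (0, regOf x.2.1 (t / M ^ (J - 1 - k) % M % 9 - 5), 1,
      x.2.2.2.1 + t / M ^ (J - 1 - k) % M % 9 - 6, 0)
  else
    (if t % M ^ (J - 1 - k) = 0 then
      (4, x.2.1, x.2.2.1, x.2.2.2.1, t / M ^ (J - 1 - k) % M / 9 + 1) else (1, 0, 0, 0, 0))

/-- The descent at time `t` from the root `(J, J)` with target register `0` and sign `+`. -/
def desc (M J t : ℕ) : ℕ × ℕ × ℕ × ℕ × ℕ := runTo (descStep M J t) J (0, 0, 0, J, 0)

/-- The operation at time `t`. -/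
def actN (C q T s0 B J n p b t R : ℕ) : ℕ :=
  opN C q T s0 B J n p b (desc (9 * (p - 1)) J t).1 (desc (9 * (p - 1)) J t).2.1
    (desc (9 * (p - 1)) J t).2.2.1 (desc (9 * (p - 1)) J t).2.2.2.1
    (desc (9 * (p - 1)) J t).2.2.2.2 R

/-- The whole evaluation. -/
def mainN (C q T s0 B J n p b : ℕ) : ℕ :=
  runTo (actN C q T s0 B J n p b) (powc (9 * (p - 1)) J C) 0

/-- The number coding the registers `R`. -/
def encR (p b : ℕ) (R : ℕ → ℕ → ZMod p) : ℕ :=
  ∑ i ∈ range (4 * b), (R (i / b) (i % b)).val * p ^ i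

/-- DESC: the descent finds the operation; `J` levels, root `(J, J)`. Here `op` is any family of
operations indexed by `(tag, r, s, i, a)`. -/
def DescStatement : Prop := ∀ (p b : ℕ) (_ : 2 ≤ p) (G L : ℕ → ℕ) (J t : ℕ)
  (_ : t < (9 * (p - 1)) ^ J) (R : ℕ → ℕ → ZMod p),
  (desc (9 * (p - 1)) J t).1 ≤ 4 ∧ (desc (9 * (p - 1)) J t).2.1 < 4 ∧
  (desc (9 * (p - 1)) J t).2.2.1 ≤ 1 ∧
  (2 ≤ (desc (9 * (p - 1)) J t).1 → 1 ≤ (desc (9 * (p - 1)) J t).2.2.2.2 ∧
    (desc (9 * (p - 1)) J t).2.2.2.2 < p) ∧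
  actA p b G L J t J 0 0 R =
    (if (desc (9 * (p - 1)) J t).1 = 0 then
      addA (desc (9 * (p - 1)) J t).2.1 (sgn p (desc (9 * (p - 1)) J t).2.2.1)
        (bitsA p (L (desc (9 * (p - 1)) J t).2.2.2.1)) R
    else if (desc (9 * (p - 1)) J t).1 = 1 then R
    else if (desc (9 * (p - 1)) J t).1 = 2 then
      scaleA (desc (9 * (p - 1)) J t).2.1 (((desc (9 * (p - 1)) J t).2.2.2.2 : ℕ) : ZMod p) R
    else if (desc (9 * (p - 1)) J t).1 = 3 then
      addA (desc (9 * (p - 1)) J t).2.1 (-(sgn p (desc (9 * (p - 1)) J t).2.2.1))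
        (extA p b G (varA b (desc (9 * (p - 1)) J t).2.1 R)) R
    else
      scaleA (desc (9 * (p - 1)) J t).2.1 (((desc (9 * (p - 1)) J t).2.2.2.2 : ℕ) : ZMod p)⁻¹ R)

/-- OPS: the operations on numbers are the operations on registers. -/
def OpsStatement : Prop := ∀ (C q T B p b : ℕ) (_ : p.Prime) (_ : 1 ≤ b) (_ : 2 ^ (3 * b) ≤ C)
  (_ : p ^ (4 * b) ≤ C) (R : ℕ → ℕ → ZMod p) (r s a : ℕ) (_ : r < 4) (_ : s ≤ 1) (_ : 1 ≤ a)
  (_ : a < p) (c : ℕ → ℕ),
  encR p b R < p ^ (4 * b) ∧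
  (∀ i, i < 4 * b → dig p (encR p b R) i = (R (i / b) (i % b)).val) ∧
  scaleN C p b r a (encR p b R) = encR p b (scaleA r (a : ZMod p) R) ∧
  scaleN C p b r (powMod p a (p - 2)) (encR p b R) = encR p b (scaleA r (a : ZMod p)⁻¹ R) ∧
  addN C p b r s c (encR p b R) = encR p b (addA r (sgn p s) (fun k => (c k : ZMod p)) R) ∧
  addN C p b r (1 - s) c (encR p b R) =
    encR p b (addA r (-(sgn p s)) (fun k => (c k : ZMod p)) R) ∧
  ∀ k, ((extN C q T B p b r (encR p b R) k : ℕ) : ZMod p) =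
    extA p b (blockMap C q T B) (varA b r R) k

/-- EVAL: the result of the evaluation on numbers (consequence of CAT, TIME, DESC, OPS). -/
def EvalStatement : Prop := ∀ (C β T s0 B J n p : ℕ) (_ : 1 ≤ β) (_ : 2 ≤ B) (_ : s0 < 2 ^ β)
  (_ : p.Prime) (_ : 3 * (B * β) + 1 < p) (_ : 2 ^ (3 * (B * β)) ≤ C)
  (_ : p ^ (4 * (B * β)) ≤ C) (_ : (9 * (p - 1)) ^ J ≤ C),
  dig p (mainN C (2 ^ β) T s0 B J n p (B * β)) β =
    dig 2 (tval (B * β) (blockMap C (2 ^ β) T B) (cont C (2 ^ β) s0 B J n) J J) β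

/-! ## 8. The diagonal function -/

/-- `1` if `p` is prime, else `0`. -/
def isPrimeN (p : ℕ) : ℕ := if (∑ d ∈ range p, if p % (d + 1) = 0 then 1 else 0) = 2 then 1 else 0

/-- The first prime `≥ m`. -/
def primeFor (m : ℕ) : ℕ :=
  m + ∑ i ∈ range (m + 2), if (∑ j ∈ range (i + 1), isPrimeN (m + j)) = 0 then 1 else 0

/-- PRIME -/
def PrimeStatement : Prop := ∀ m, 1 ≤ m → (primeFor m).Prime ∧ m ≤ primeFor m ∧ primeFor m ≤ 2 * m

/-- The width of the blocks. -/
def width (n : ℕ) : ℕ := n / (Nat.log 2 n + 1) ^ 2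

/-- The outcome of the evaluation for the array with code `e = (β - 1, T, s0)`. -/
def outE (C n e : ℕ) : ℕ :=
  dig (primeFor (3 * (width n * (e.unpair.1 + 1)) + 2))
    (mainN C (powc 2 (e.unpair.1 + 1) C) e.unpair.2.unpair.1 e.unpair.2.unpair.2 (width n) (width n)
      n (primeFor (3 * (width n * (e.unpair.1 + 1)) + 2)) (width n * (e.unpair.1 + 1)))
    (e.unpair.1 + 1)

/-- The diagonal function. -/
def diag (x : ℕ) : ℕ := if outE x (Nat.log 2 x) (Nat.log 2 x).unpair.1 = 1 then 0 else 1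

/-- LSMAIN (from LSNUM, LSOP, LSDESC): the diagonal function is of linear space. -/
def LSDiagStatement : Prop := LS diag

/-- SIZE: everything fits into `n` bits for large `n`. -/
def SizeStatement : Prop := ∀ β : ℕ, 1 ≤ β → ∃ N, ∀ n, N ≤ n → 1 ≤ n ∧ β ≤ n ∧ 2 ≤ width n ∧
  2 ^ (3 * (width n * β)) ≤ 2 ^ n ∧
  ∀ p, 1 ≤ p → p ≤ 2 * (3 * (width n * β) + 2) →
    p ^ (4 * (width n * β)) ≤ 2 ^ n ∧ (9 * (p - 1)) ^ width n ≤ 2 ^ n

/-- DIAG: no array within time `(width n) ^ 2` accepts the diagonal set (consequence of BLOCK, EVAL,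
PRIME, SIZE). -/
def DiagStatement : Prop := ∀ (Q : Type) (_ : Finite Q) (s : Q)
  (δ : Option Q → Q → Option Q → Q) (F : Set Q) (N : ℕ),
  ∃ n, N ≤ n ∧ ¬ (diag (2 ^ n) ≠ 0 ↔ ∃ t, t ≤ width n ^ 2 ∧ aAcc δ s F n t)

/-! ## 9. Linear-space functions of several variables -/

/-- Linear-space functions between types with canonical numberings (`ℕ`, `ℕ × ℕ`, …). -/
def LSf {α β : Type} [Denumerable α] [Denumerable β] (f : α → β) : Prop :=
  LS fun n => Encodable.encode (f (Denumerable.ofNat α n))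

/-- LSBLK -/
def LSBlkStatement : Prop := ∀ (α : Type) [Denumerable α],
  (∀ C q T B x : α → ℕ, LSf C → LSf q → LSf T → LSf B → LSf x →
    LSf fun a => blockMap (C a) (q a) (T a) (B a) (x a)) ∧
  (∀ C q s B J n i : α → ℕ, LSf C → LSf q → LSf s → LSf B → LSf J → LSf n → LSf i →
    LSf fun a => cont (C a) (q a) (s a) (B a) (J a) (n a) (i a))

/-- LSOP (from LSBLK) -/
def LSOpStatement : Prop := ∀ (α : Type) [Denumerable α]
  (C q T s0 B J n p b tag r s i a R : α → ℕ), LSf C → LSf q → LSf T → LSf s0 → LSf B → LSf J →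
  LSf n → LSf p → LSf b → LSf tag → LSf r → LSf s → LSf i → LSf a → LSf R → (∀ x, 1 ≤ p x) →
  LSf fun x => opN (C x) (q x) (T x) (s0 x) (B x) (J x) (n x) (p x) (b x) (tag x) (r x) (s x) (i x)
    (a x) (R x)

/-- LSDESC -/
def LSDescStatement : Prop := ∀ (α : Type) [Denumerable α] (M J t : α → ℕ), LSf M → LSf J →
  LSf t → LSf fun x => desc (M x) (J x) (t x)

/-- LSNUM -/
def LSNumStatement : Prop := LSf primeFor ∧ LSf width ∧ LSf (Nat.log 2) ∧
  ∀ (α : Type) [Denumerable α], (∀ b e C : α → ℕ, LSf b → LSf e → LSf C →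
    LSf fun a => powc (b a) (e a) (C a)) ∧
    ∀ b x i : α → ℕ, LSf b → LSf x → LSf i → LSf fun a => dig (b a) (x a) (i a)

/-! ## 10. The final theorem in terms of languages -/

/-- One step of a two-way array with exactly `n` nodes, as in the problem file. -/
def twoStep {Q : Type} (n : ℕ) (δ : Option Q → Q → Option Q → Q) (c : Fin n → Q) (i : Fin n) : Q :=
  δ (if (i : ℕ) = 0 then none else some (c ⟨(i : ℕ) - 1, lt_of_le_of_lt (Nat.sub_le _ _) i.isLt⟩))
    (c i) (if hi : (i : ℕ) + 1 < n then some (c ⟨(i : ℕ) + 1, hi⟩) else none)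

/-- One step of a one-way array with exactly `n` nodes, as in the problem file. -/
def oneStep {Q : Type} (n : ℕ) (δ : Option Q → Q → Q) (c : Fin n → Q) (i : Fin n) : Q :=
  δ (if (i : ℕ) = 0 then none else some (c ⟨(i : ℕ) - 1, lt_of_le_of_lt (Nat.sub_le _ _) i.isLt⟩))
    (c i)

/-- CONV: comparison of the two forms of configurations (the one-way array is mirrored). -/
def ConvStatement : Prop := ∀ (Q : Type) (s : Q) (F : Set Q) (n t : ℕ) (h : 0 < n),
  (∀ δ : Option Q → Q → Option Q → Q,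
    ((twoStep n δ)^[t] (fun _ => s) ⟨0, h⟩ ∈ F ↔ aAcc δ s F n t)) ∧
  (∀ δ : Option Q → Q → Q,
    ((oneStep n δ)^[t] (fun _ => s) ⟨n - 1, Nat.sub_lt h Nat.one_pos⟩ ∈ F ↔
      aAcc (fun _ q r => δ r q) s F n t))

end Pool.Agent.Lib.MP_2eed13_lc.LCA
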